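import Pool.Agent.Helper30_Simp.Stmts

/-!
# SIMP, module FTS: the functors are of finite type
-/

set_option autoImplicit false
set_option linter.unusedVariables false
set_option linter.unusedSectionVars false

namespace Pool.Agent.Helper30_Simp.H51

open PowerSeries Finset Pool.Agent.Helper6_Mono Pool.Agent.Helper30_Simp

variable {k : Type} [Field k] {σ : Type} [Fintype σ] {W : Type} [AddCommGroup W]

/-- coordinates -/
@[reducible] noncomputable def crd {g : MvPolynomial σ k} (V : TS W g) (i : σ) :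
    NF V.A.F (V.ν i) :=
  ⟨fun x => x i, fun φ c x => rfl⟩

theorem ft_TT0 {g : MvPolynomial σ k} (V : TS W g) : FT (TT0 V).F := by
  classical
  have h1 : FT (V.A.tor (crd V) univ V.U).F := FT.tor (FT.pi _) _ _ _
  let v : NF (V.A.tor (crd V) univ V.U).F V.μ :=
    ⟨fun x => MvPolynomial.aeval x.1 g, fun φ c x => aeval_twist V φ c x.1⟩
  have h2 : FT ((V.A.tor (crd V) univ V.U).zero v).F := FT.zero h1 v
  exact FT.of_equiv (F := (TT0 V).F) (G := ((V.A.tor (crd V) univ V.U).zero v).F) ⟨fun S _ _ =>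
    { toFun := fun x => ⟨⟨x.1, fun i _ => x.2.1 i⟩, x.2.2⟩
      invFun := fun x => ⟨x.1.1, fun i => x.1.2 i (Finset.mem_univ i), x.2⟩
      left_inv := fun x => rfl
      right_inv := fun x => rfl }, fun φ c x => rfl⟩ h2

theorem ft_TT1 {g : MvPolynomial σ k} (V : TS W g) (h : V.μ = 0) : FT (TT1 V h).F := by
  classical
  have h1 : FT (V.A.tor (crd V) univ V.U).F := FT.tor (FT.pi _) _ _ _
  let v : NF (V.A.tor (crd V) univ V.U).F 0 :=
    ⟨fun x => MvPolynomial.aeval x.1 g - 1, fun {S S'} _ _ _ _ φ c x => by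
      show MvPolynomial.aeval (fun i => chr c (V.ν i) * φ (x.1 i)) g - 1 = _
      rw [aeval_twist V, h, chr_zero, map_sub, map_one, one_mul, one_mul]⟩
  have h2 : FT ((V.A.tor (crd V) univ V.U).zero v).F := FT.zero h1 v
  exact FT.of_equiv (F := (TT1 V h).F) (G := ((V.A.tor (crd V) univ V.U).zero v).F)
    ⟨fun S _ _ =>
    { toFun := fun x => ⟨⟨x.1, fun i _ => x.2.1 i⟩, sub_eq_zero.2 x.2.2⟩
      invFun := fun x => ⟨x.1.1, fun i => x.1.2 i (Finset.mem_univ i), sub_eq_zero.1 x.2⟩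
      left_inv := fun x => rfl
      right_inv := fun x => rfl }, fun φ c x => rfl⟩ h2

theorem DU_finite (u : σ → ℕ) (m : ℕ) : (DU u m).Finite := by
  refine Set.Finite.subset ((Set.finite_univ (α := σ)).prod (Set.finite_Iic m)) fun p hp => ?_
  exact ⟨Set.mem_univ _, hp.2⟩

theorem aeval_twS (f : MvPolynomial σ k) (ω : W) {S S' : Type} [CommRing S] [Algebra k S]
    [CommRing S'] [Algebra k S'] (φ : S →ₐ[k] S') (c : Chr W S') (γ : σ → S⟦X⟧) :
    MvPolynomial.aeval (fun i => twS ω φ c (γ i)) f = twS ω φ c (MvPolynomial.aeval γ f) := by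
  rw [← MvPolynomial.comp_aeval_apply]

theorem ft_FS (f : MvPolynomial σ k) (u : σ → ℕ) (m : ℕ) (ω : W) (hω : m • ω = 0) :
    FT (FS f u m ω hω).F := by
  classical
  let X0 : OverS k σ W := SupS k (DU u m) ω
  have h0 : FT X0.F := FT.sup (DU_finite u m) ω
  let cf : ∀ i : σ, NF X0.F (u i • ω) := fun i =>
    ⟨fun γ => coeff (u i) (γ.1 i), fun φ c γ => coeff_twS ω φ c (γ.1 i) (u i)⟩
  let T : Finset σ := univ.filter fun i => u i ≤ m
  have h1 : FT (X0.tor cf T T).F := FT.tor h0 _ _ _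
  let v : ∀ a : Fin (m + 1), NF (X0.tor cf T T).F ((a : ℕ) • ω) := fun a =>
    ⟨fun x => coeff (a : ℕ) (MvPolynomial.aeval x.1.1 f) - (if (a : ℕ) = m then 1 else 0),
      fun {S S'} _ _ _ _ φ c x => by
      show coeff (a : ℕ) (MvPolynomial.aeval (fun i => twS ω φ c (x.1.1 i)) f) - _ = _
      rw [aeval_twS, coeff_twS, map_sub, mul_sub]
      congr 1
      split_ifs with h
      · rw [h, hω, chr_zero, map_one, mul_one]
      · rw [map_zero, mul_zero]⟩
  let Y := (X0.tor cf T T).sub (fun S _ _ x => ∀ a : Fin (m + 1), (v a).fn x = 0)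
    (fun φ c x hx a => by rw [(v a).fn_tw, hx a, map_zero, mul_zero])
  have h2 : FT Y.F := FT.closed h1 (fun φ c x hx a => by
    rw [(v a).fn_tw, hx a, map_zero, mul_zero]) v (fun S _ _ x => Iff.rfl)
  exact FT.of_equiv (F := (FS f u m ω hω).F) (G := Y.F)
    ⟨fun S _ _ =>
    { toFun := fun x => ⟨⟨x.1, fun i hi => ⟨fun _ => x.2.1 i (Finset.mem_filter.1 hi).2,
        fun h => absurd hi h⟩⟩, fun a => sub_eq_zero.2 (x.2.2 a (by omega))⟩
      invFun := fun x => ⟨x.1.1, fun i hi => (x.1.2 i (Finset.mem_filter.2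
        ⟨Finset.mem_univ i, hi⟩)).1 (Finset.mem_filter.2 ⟨Finset.mem_univ i, hi⟩),
        fun c hc => sub_eq_zero.1 (x.2 ⟨c, by omega⟩)⟩
      left_inv := fun x => rfl
      right_inv := fun x => rfl }, fun φ c x => rfl⟩ h2

/-- MODULE FTS -/
theorem fts : FTStmt := fun k _ σ _ W _ =>
  ⟨fun g V => ft_TT0 V, fun g V h => ft_TT1 V h, fun f u m ω hω => ft_FS f u m ω hω⟩

end Pool.Agent.Helper30_Simp.H51
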