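import Pool.Agent.Helper51_Simp.FTS

/-!
# SIMP: leading coefficients of the value of a polynomial at a family of series
-/

set_option autoImplicit false
set_option linter.unusedVariables false
set_option linter.unusedSectionVars false

namespace Pool.Agent.Helper30_Simp.H51

open PowerSeries Finset Pool.Agent.Helper6_Mono Pool.Agent.Helper30_Simp

section ser

variable {S : Type} [CommRing S] {σ : Type} [Fintype σ]

/-- the product of a family of series with given orders -/
theorem lead_prod (u : σ → ℕ) (γ : σ → S⟦X⟧) (hγ : ∀ i c, c < u i → coeff c (γ i) = 0)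
    (α : σ →₀ ℕ) :
    (∀ c < dot u α, coeff c (∏ i, γ i ^ α i) = 0) ∧
      coeff (dot u α) (∏ i, γ i ^ α i) = ∏ i, coeff (u i) (γ i) ^ α i := by
  have h0 : ∀ i, ∃ η : S⟦X⟧, γ i = X ^ u i * η := fun i =>
    PowerSeries.X_pow_dvd_iff.2 (hγ i)
  choose η hη using h0
  have h1 : ∏ i, γ i ^ α i = X ^ dot u α * ∏ i, η i ^ α i := by
    rw [dot, ← Finset.prod_pow_eq_pow_sum, ← Finset.prod_mul_distrib]
    refine Finset.prod_congr rfl fun i _ => ?_
    rw [hη i, mul_pow, ← pow_mul]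
    rfl
  have h2 : ∀ i, coeff (u i) (γ i) = constantCoeff (η i) := fun i => by
    rw [hη i, coeff_X_pow_mul', if_pos le_rfl, Nat.sub_self, coeff_zero_eq_constantCoeff_apply]
  refine ⟨fun c hc => ?_, ?_⟩
  · rw [h1, coeff_X_pow_mul', if_neg (not_le.2 hc)]
  · rw [h1, coeff_X_pow_mul', if_pos le_rfl, Nat.sub_self, coeff_zero_eq_constantCoeff_apply,
      map_prod]
    refine Finset.prod_congr rfl fun i _ => ?_
    rw [map_pow, h2]

variable {k : Type} [Field k] [Algebra k S]

theorem coeff_aeval_sum (f : MvPolynomial σ k) (γ : σ → S⟦X⟧) (c : ℕ) :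
    coeff c (MvPolynomial.aeval γ f)
      = ∑ α ∈ f.support, algebraMap k S (f.coeff α) * coeff c (∏ i, γ i ^ α i) := by
  rw [MvPolynomial.aeval_def, MvPolynomial.eval₂_eq', map_sum]
  refine Finset.sum_congr rfl fun α _ => ?_
  rw [PowerSeries.algebraMap_apply, coeff_C_mul]

theorem aeval_part (f : MvPolynomial σ k) (I : Finset (σ →₀ ℕ)) (x : σ → S) :
    MvPolynomial.aeval x (part f I)
      = ∑ α ∈ I, algebraMap k S (f.coeff α) * ∏ i, x i ^ α i := by
  rw [part, map_sum]
  refine Finset.sum_congr rfl fun α _ => ?_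
  rw [MvPolynomial.aeval_monomial]
  congr 1
  exact Finsupp.prod_fintype _ _ fun i => pow_zero _

/-- below the minimum of the weights the value has no coefficients -/
theorem coeff_low (f : MvPolynomial σ k) (u : σ → ℕ) (γ : σ → S⟦X⟧)
    (hγ : ∀ i c, c < u i → coeff c (γ i) = 0) (c : ℕ) (hc : ∀ α ∈ f.support, c < dot u α) :
    coeff c (MvPolynomial.aeval γ f) = 0 := by
  rw [coeff_aeval_sum]
  refine Finset.sum_eq_zero fun α hα => ?_
  rw [(lead_prod u γ hγ α).1 c (hc α hα), mul_zero]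

/-- the coefficient at the minimum of the weights -/
theorem coeff_lead {f : MvPolynomial σ k} {I : Finset (σ →₀ ℕ)} {J : Finset σ} {u : σ → ℕ}
    {N : ℕ} (h : CellS f.support I J u N) (γ : σ → S⟦X⟧)
    (hγ : ∀ i c, c < u i → coeff c (γ i) = 0) :
    (∀ c < N, coeff c (MvPolynomial.aeval γ f) = 0) ∧
      coeff N (MvPolynomial.aeval γ f)
        = MvPolynomial.aeval (fun i => coeff (u i) (γ i)) (part f I) := by
  classical
  have hle : ∀ α ∈ f.support, N ≤ dot u α := fun α hα => by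
    by_cases hI : α ∈ I
    · exact (h.eq α hI).ge
    · exact (h.lt α hα hI).le
  refine ⟨fun c hc => coeff_low f u γ hγ c fun α hα => lt_of_lt_of_le hc (hle α hα), ?_⟩
  rw [coeff_aeval_sum, aeval_part]
  symm
  refine Finset.sum_subset_zero_on_sdiff h.sub (fun α hα => ?_) (fun α hα => ?_)
  · rw [Finset.mem_sdiff] at hα
    rw [(lead_prod u γ hγ α).1 N (h.lt α hα.1 hα.2), mul_zero]
  · have h1 : dot u α = N := h.eq α hα
    have h2 := (lead_prod u γ hγ α).2
    rw [h1] at h2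
    rw [h2]

end ser

section pts

variable {k : Type} [Field k] {σ : Type} [Fintype σ] {W : Type} [AddCommGroup W]
  {S : Type} [CommRing S] [Algebra k S]

theorem sup_low {u : σ → ℕ} {m : ℕ} {γ : σ → S⟦X⟧}
    (hγ : ∀ i j, (i, j) ∉ DU u m → coeff j (γ i) = 0) : ∀ i c, c < u i → coeff c (γ i) = 0 :=
  fun i c hc => hγ i c fun h => absurd h.1 (not_le.2 hc)

theorem sup_big {u : σ → ℕ} {m : ℕ} {γ : σ → S⟦X⟧}
    (hγ : ∀ i j, (i, j) ∉ DU u m → coeff j (γ i) = 0) {i : σ} (hi : m < u i) (c : ℕ) :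
    coeff c (γ i) = 0 :=
  hγ i c fun h => absurd (le_trans h.1 h.2) (not_le.2 hi)

end pts

/-- MODULE P1 -/
theorem p1 : P1Stmt := by
  intro k _ σ _ R _ L χ f u m ω hω hm
  refine χ.empty (ft_FS f u m ω hω) fun S _ _ γ => ?_
  have h1 := γ.2.2 m le_rfl
  rw [if_pos rfl, coeff_low f u γ.1.1 (sup_low γ.1.2) m hm] at h1
  exact h1.symm

/-! ### Cardinalities -/

section card

variable {σ : Type} [Fintype σ]

theorem ncard_family (A : σ → Finset ℕ) (D : Set (σ × ℕ)) (hD : ∀ p, p ∈ D ↔ p.2 ∈ A p.1) :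
    D.Finite ∧ D.ncard = ∑ i, (A i).card := by
  classical
  have h1 : D = ((Finset.univ.sigma A).map
      ⟨fun x : (_ : σ) × ℕ => (x.1, x.2), fun x y h => by
        cases x; cases y; simpa using h⟩ : Finset (σ × ℕ)) := by
    ext ⟨i, c⟩
    rw [hD]
    simp
  rw [h1]
  refine ⟨Finset.finite_toSet _, ?_⟩
  rw [Set.ncard_coe_finset, Finset.card_map, Finset.card_sigma]

end card

/-- the indices of the coefficients after the leading one -/
def DP {σ : Type} (u : σ → ℕ) (m : ℕ) : Set (σ × ℕ) := {p | u p.1 < p.2 ∧ p.2 ≤ m}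

theorem DP_card {σ : Type} [Fintype σ] (u : σ → ℕ) (m : ℕ) :
    (DP u m).Finite ∧ (DP u m).ncard = ∑ i, (m - u i) := by
  obtain ⟨h1, h2⟩ := ncard_family (fun i => Finset.Ioc (u i) m) (DP u m) fun p => by
    rw [Finset.mem_Ioc]
    rfl
  refine ⟨h1, ?_⟩
  rw [h2]
  exact Finset.sum_congr rfl fun i _ => Nat.card_Ioc _ _

theorem DRj_card {σ : Type} [Fintype σ] (u : σ → ℕ) (m N : ℕ) (j : σ) (hN : N < m)
    (hj : u j ≤ N) : (DRj u m N j).Finite ∧
      (DRj u m N j).ncard + (m - N) = ∑ i, (m - u i) := by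
  classical
  obtain ⟨h1, h2⟩ := ncard_family
    (fun i => if i = j then Finset.Ioc (m + u j - N) m else Finset.Ioc (u i) m) (DRj u m N j)
    fun p => by
      show (u p.1 < p.2 ∧ p.2 ≤ m ∧ (p.1 = j → m + u j < p.2 + N)) ↔ _
      split_ifs with h
      · rw [Finset.mem_Ioc, h]
        constructor
        · rintro ⟨h3, h4, h5⟩
          have := h5 rfl
          omega
        · rintro ⟨h3, h4⟩
          refine ⟨by omega, h4, fun _ => by omega⟩
      · rw [Finset.mem_Ioc]
        exact ⟨fun h3 => ⟨h3.1, h3.2.1⟩, fun h3 => ⟨h3.1, h3.2, fun h4 => absurd h4 h⟩⟩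
  refine ⟨h1, ?_⟩
  rw [h2, ← Finset.add_sum_erase _ _ (Finset.mem_univ j),
    ← Finset.add_sum_erase univ (fun i => m - u i) (Finset.mem_univ j)]
  have h3 : ∑ x ∈ univ.erase j,
      (if x = j then Finset.Ioc (m + u j - N) m else Finset.Ioc (u x) m).card
      = ∑ x ∈ univ.erase j, (m - u x) := by
    refine Finset.sum_congr rfl fun i hi => ?_
    rw [if_neg (Finset.ne_of_mem_erase hi), Nat.card_Ioc]
  rw [h3, if_pos rfl, Nat.card_Ioc]
  omega

theorem Li_L {R : Type*} [CommRing R] {L : Rˣ} {a b c : ℕ} (h : a = b + c) :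
    Li L ^ a * (L : R) ^ b = Li L ^ c := by
  rw [h, pow_add]
  calc Li L ^ b * Li L ^ c * (L : R) ^ b = (Li L ^ b * (L : R) ^ b) * Li L ^ c := by ring
    _ = _ := by rw [Li_pow_mul, one_mul]

theorem sum_min (σ : Type) [Fintype σ] (u : σ → ℕ) (m : ℕ) :
    m * Fintype.card σ = ∑ i, (m - u i) + ∑ i, min (u i) m := by
  rw [← Finset.sum_add_distrib]
  have : ∀ i, m - u i + min (u i) m = m := fun i => by omega
  rw [Finset.sum_congr rfl fun i _ => this i, Finset.sum_const, Finset.card_univ, smul_eq_mul,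
    mul_comm]

end Pool.Agent.Helper30_Simp.H51
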