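import Pool.Agent.Helper51_Simp.P2

/-!
# SIMP, module P3: strata on which the leading term of the value vanishes
-/

set_option autoImplicit false
set_option linter.unusedVariables false
set_option linter.unusedSectionVars false

namespace Pool.Agent.Helper30_Simp.H51

open PowerSeries Finset Pool.Agent.Helper6_Mono Pool.Agent.Helper30_Simp

variable {k : Type} [Field k] {σ : Type} [Fintype σ] {W : Type} [AddCommGroup W]

/-! ### The partial derivatives as functions on the torus -/

theorem isWH_of_ts {g : MvPolynomial σ k} (V : TS W g) :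
    MvPolynomial.IsWeightedHomogeneous V.ν g V.μ := by
  intro d hd
  exact V.hg d (MvPolynomial.mem_support_iff.2 hd)

theorem isWH_pderiv {g : MvPolynomial σ k} (V : TS W g) (j : σ) :
    MvPolynomial.IsWeightedHomogeneous V.ν (MvPolynomial.pderiv j g) (V.μ - V.ν j) :=
  (isWH_of_ts V).pderiv (sub_add_cancel _ _)

/-- the value of a partial derivative of `g` at the leading coefficients -/
@[reducible] noncomputable def pdF {f : MvPolynomial σ k} {I : Finset (σ →₀ ℕ)} {J : Finset σ}
    {u : σ → ℕ} {N : ℕ} (h : CellS f.support I J u N) (m : ℕ) (ω : W) (hω : m • ω = 0) (j : σ) :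
    NF (FS f u m ω hω).F (N • ω - u j • ω) :=
  ⟨fun γ => MvPolynomial.aeval (fun i => coeff (u i) (γ.1.1 i))
      (MvPolynomial.pderiv j (part f I)), fun {S S'} _ _ _ _ φ c γ => by
    show MvPolynomial.aeval (fun i => coeff (u i) (twS ω φ c (γ.1.1 i)))
      (MvPolynomial.pderiv j (part f I)) = _
    have h1 : (fun i => coeff (u i) (twS ω φ c (γ.1.1 i)))
        = fun i => chr c (u i • ω) * φ (coeff (u i) (γ.1.1 i)) := by
      funext i
      rw [coeff_twS]
    rw [h1]
    exact aeval_tw (isWH_pderiv (TSu h m ω) j) φ c _⟩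

/-- the value of a partial derivative of `g` at a point of the torus -/
@[reducible] noncomputable def pdT {f : MvPolynomial σ k} {I : Finset (σ →₀ ℕ)} {J : Finset σ}
    {u : σ → ℕ} {N : ℕ} (h : CellS f.support I J u N) (m : ℕ) (ω : W) (j : σ) :
    NF (TT0 (TSu h m ω)).F (N • ω - u j • ω) :=
  ⟨fun x => MvPolynomial.aeval x.1 (MvPolynomial.pderiv j (part f I)), fun φ c x =>
    aeval_tw (isWH_pderiv (TSu h m ω) j) φ c _⟩

/-! ### Smoothness in the torus -/

theorem dot_le {u : σ → ℕ} {α : σ →₀ ℕ} {i : σ} (hi : α i ≠ 0) : u i ≤ dot u α := by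
  have h1 : u i * α i ≤ dot u α := by
    rw [dot]
    exact Finset.single_le_sum (f := fun i => u i * ((α i : ℕ) : ℕ)) (fun i _ => Nat.zero_le _)
      (Finset.mem_univ i)
  exact le_trans (Nat.le_mul_of_pos_right _ (Nat.pos_of_ne_zero hi)) h1

/-- the variables of `part f I` have `u i ≤ N` -/
theorem vars_part {f : MvPolynomial σ k} {I : Finset (σ →₀ ℕ)} {J : Finset σ}
    {u : σ → ℕ} {N : ℕ} (h : CellS f.support I J u N) {i : σ}
    (hi : i ∈ (part f I).vars) : u i ≤ N := by
  rw [MvPolynomial.mem_vars_iff_mem_support] at hi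
  obtain ⟨α, hα, h1⟩ := hi
  rw [← h.eq α (mem_of_mem_part_support hα)]
  exact dot_le (Finsupp.mem_support_iff.1 h1)

theorem aeval_congr_vars {S : Type} [CommRing S] [Algebra k S] {p : MvPolynomial σ k}
    {x y : σ → S} (h : ∀ i ∈ p.vars, x i = y i) :
    MvPolynomial.aeval x p = MvPolynomial.aeval y p := by
  rw [MvPolynomial.aeval_def, MvPolynomial.aeval_def]
  refine MvPolynomial.eval₂Hom_congr' (f₁ := algebraMap k S) (f₂ := algebraMap k S) rfl
    (fun i hi _ => h i hi) rfl

theorem vars_pderiv_sub (p : MvPolynomial σ k) (j : σ) :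
    (MvPolynomial.pderiv j p).vars ⊆ p.vars := by
  classical
  intro i hi
  rw [MvPolynomial.mem_vars_iff_mem_support] at hi ⊢
  obtain ⟨α, hα, h1⟩ := hi
  rw [MvPolynomial.mem_support_iff] at hα
  have h2 : ∃ β ∈ p.support, MvPolynomial.coeff α
      (MvPolynomial.pderiv j (MvPolynomial.monomial β (p.coeff β))) ≠ 0 := by
    by_contra hcon
    push Not at hcon
    apply hα
    conv_lhs => rw [p.as_sum, map_sum, MvPolynomial.coeff_sum]
    exact Finset.sum_eq_zero hcon
  obtain ⟨β, hβ, h3⟩ := h2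
  rw [MvPolynomial.pderiv_monomial, MvPolynomial.coeff_monomial] at h3
  have h4 : β - Finsupp.single j 1 = α := by
    by_contra h5
    exact h3 (if_neg h5)
  refine ⟨β, hβ, ?_⟩
  rw [Finsupp.mem_support_iff] at h1 ⊢
  rw [← h4] at h1
  intro h5
  apply h1
  rw [Finsupp.tsub_apply, h5, Nat.zero_sub]

/-- if all derivatives vanish at a point of the torus, the ring is trivial -/
theorem torus_empty {f : MvPolynomial σ k} {I : Finset (σ →₀ ℕ)} {J : Finset σ}
    {u : σ → ℕ} {N m : ℕ} (h : CellS f.support I J u N) (hN : N < m)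
    (hT : TorusSmooth (part f I)) {S : Type} [CommRing S] [Algebra k S] (x : σ → S)
    (hx : ∀ i, u i ≤ m → IsUnit (x i)) (hg : MvPolynomial.aeval x (part f I) = 0)
    (hp : ∀ j, MvPolynomial.aeval x (MvPolynomial.pderiv j (part f I)) = 0) : (1 : S) = 0 := by
  classical
  let y : σ → S := fun i => if u i ≤ m then x i else 1
  have hxy : ∀ i ∈ (part f I).vars, x i = y i := by
    intro i hi
    show x i = if u i ≤ m then x i else 1
    rw [if_pos (le_trans (vars_part h hi) hN.le)]
  obtain ⟨K, hK⟩ := hT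
  have h1 : Ideal.span ({part f I} ∪ Set.range fun j => MvPolynomial.pderiv j (part f I))
      ≤ RingHom.ker (MvPolynomial.aeval y : MvPolynomial σ k →ₐ[k] S) := by
    rw [Ideal.span_le]
    rintro e (he | ⟨j, rfl⟩)
    · rw [Set.mem_singleton_iff] at he
      rw [he]
      show MvPolynomial.aeval y (part f I) = 0
      rw [← aeval_congr_vars hxy, hg]
    · show MvPolynomial.aeval y (MvPolynomial.pderiv j (part f I)) = 0
      rw [← aeval_congr_vars fun i hi => hxy i (vars_pderiv_sub _ _ hi), hp]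
  have h2 : MvPolynomial.aeval y ((∏ i, MvPolynomial.X i) ^ K : MvPolynomial σ k) = 0 := h1 hK
  rw [map_pow, map_prod] at h2
  have h3 : IsUnit ((∏ i, MvPolynomial.aeval y (MvPolynomial.X i : MvPolynomial σ k)) ^ K) := by
    refine IsUnit.pow _ ?_
    refine IsUnit.prod_univ_iff.2 fun i => ?_
    rw [MvPolynomial.aeval_X]
    show IsUnit (if u i ≤ m then x i else 1)
    split_ifs with hi
    · exact hx i hi
    · exact isUnit_one
  rw [h2] at h3
  obtain ⟨a, ha⟩ := h3.exists_left_inv
  rw [mul_zero] at ha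
  exact ha.symm

/-- if `N < u j` the derivative with respect to `x_j` vanishes -/
theorem pderiv_zero {f : MvPolynomial σ k} {I : Finset (σ →₀ ℕ)} {J : Finset σ}
    {u : σ → ℕ} {N : ℕ} (h : CellS f.support I J u N) {j : σ} (hj : N < u j) :
    MvPolynomial.pderiv j (part f I) = 0 :=
  MvPolynomial.pderiv_eq_zero_of_notMem_vars fun hv => absurd (vars_part h hv) (not_le.2 hj)

/-! ### The isomorphism -/

section iso

variable {f : MvPolynomial σ k} {I : Finset (σ →₀ ℕ)} {J : Finset σ} {u : σ → ℕ} {N m : ℕ}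
  (h : CellS f.support I J u N) (ω : W) (hω : m • ω = 0) {n : ℕ} (en : Fin n → σ)

theorem DRj_sub (u : σ → ℕ) (m N : ℕ) (j : σ) {p : σ × ℕ} (hp : p ∈ DRj u m N j) :
    p ∈ DU u m := ⟨le_of_lt hp.1, hp.2.1⟩

theorem p3_iso (hhen : HenStmt) (hN : N < m) (j : Fin n) :
    OIso ((FS f u m ω hω).stp (fun i => pdF h m ω hω (en i)) j)
      (((TT0 (TSu h m ω)).stp (fun i => pdT h m ω (en i)) j).times
        (GF.sup k (DRj u m N (en j)) ω)) := by
  classical
  refine OIso.ofBij (fun S _ _ p => (⟨⟨fun i => coeff (u i) (p.1.1.1 i),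
      tor_mem h m ω p.1.1.2 p.1.2.1, ?_⟩, p.2⟩,
      ⟨cut (DRj u m N (en j)) p.1.1.1, fun i c hc => coeff_cut_not _ hc⟩)) ?_ ?_ ?_
  · have h1 := (coeff_lead h p.1.1.1 (sup_low p.1.1.2)).2
    rw [← h1, p.1.2.2 N hN.le, if_neg (by omega)]
  · intro S S' _ _ _ _ φ c p
    refine Prod.ext (Subtype.ext (Subtype.ext (funext fun i => ?_)))
      (Subtype.ext (funext fun i => ?_))
    · show coeff (u i) (twS ω φ c (p.1.1.1 i)) = chr c (u i • ω) * φ (coeff (u i) (p.1.1.1 i))
      rw [coeff_twS]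
    · exact cut_twS ω φ c p.1.1.1 i
  · intro S _ _
    constructor
    · intro p p' hpp
      have hx : (fun i => coeff (u i) (p.1.1.1 i)) = fun i => coeff (u i) (p'.1.1.1 i) :=
        congrArg (fun q => q.1.1.1) hpp
      have hr : cut (DRj u m N (en j)) p.1.1.1 = cut (DRj u m N (en j)) p'.1.1.1 :=
        congrArg (fun q => q.2.1) hpp
      have hg : MvPolynomial.aeval (fun i => coeff (u i) (p.1.1.1 i)) (part f I) = 0 := by
        have h1 := (coeff_lead h p.1.1.1 (sup_low p.1.1.2)).2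
        rw [← h1, p.1.2.2 N hN.le, if_neg (by omega)]
      obtain ⟨γ, hγ, huniq⟩ := hhen k σ f I J u N m h hN S (en j)
        (fun i => coeff (u i) (p.1.1.1 i)) (fun i hi => sup_big p.1.1.2 hi _) hg p.2.2 p.1.1.1
      refine Subtype.ext (Subtype.ext (Subtype.ext ?_))
      refine (huniq p.1.1.1 ⟨p.1.1.2, fun i _ => rfl, p.1.2.2, fun q _ => rfl⟩).trans
        (huniq p'.1.1.1 ⟨p'.1.1.2, fun i _ => ?_, p'.1.2.2, fun q hq => ?_⟩).symm
      · exact (congrFun hx i).symm
      · have h2 := congrArg (fun z => coeff q.2 (z q.1)) hr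
        simp only [coeff_cut_mem _ (show (q.1, q.2) ∈ DRj u m N (en j) from hq)] at h2
        exact h2.symm
    · intro q
      have hx0 : ∀ i, m < u i → q.1.1.1 i = 0 := fun i hi =>
        (q.1.1.2.1 i).2 fun h3 => absurd (Finset.mem_filter.1 h3).2 (not_le.2 hi)
      obtain ⟨γ, ⟨hγ1, hγ2, hγ3, hγ4⟩, -⟩ := hhen k σ f I J u N m h hN S (en j) q.1.1.1 hx0
        q.1.1.2.2 q.1.2.2 q.2.1
      have hxl : (fun i => coeff (u i) (γ i)) = q.1.1.1 := by
        funext i
        by_cases hi : u i ≤ m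
        · exact hγ2 i hi
        · rw [hx0 i (not_le.1 hi), sup_big hγ1 (not_le.1 hi)]
      refine ⟨⟨⟨⟨γ, hγ1⟩, fun i hi => ?_, hγ3⟩, ?_⟩, ?_⟩
      · show IsUnit (coeff (u i) (γ i))
        rw [hγ2 i hi]
        exact (q.1.1.2.1 i).1 (Finset.mem_filter.2 ⟨Finset.mem_univ i, hi⟩)
      · show (∀ i < j, MvPolynomial.aeval (fun i => coeff (u i) (γ i))
            (MvPolynomial.pderiv (en i) (part f I)) = 0) ∧
          IsUnit (MvPolynomial.aeval (fun i => coeff (u i) (γ i))
            (MvPolynomial.pderiv (en j) (part f I)))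
        rw [hxl]
        exact q.1.2
      · refine Prod.ext (Subtype.ext (Subtype.ext hxl)) (Subtype.ext (funext fun i => ?_))
        show cut (DRj u m N (en j)) γ i = q.2.1 i
        ext c
        by_cases hc : (i, c) ∈ DRj u m N (en j)
        · rw [coeff_cut_mem _ hc]
          exact hγ4 (i, c) hc
        · rw [coeff_cut_not _ hc, q.2.2 i c hc]
  · intro S _ _ p i
    exact base_pt h (sup_low p.1.1.2) i

end iso

/-- MODULE P3 -/
theorem p3 (hhen : HenStmt) : P3Stmt := by
  intro k _ σ _ R _ L χ f I J u N m h hN hT ω hω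
  classical
  let en : Fin (Fintype.card σ) → σ := (Fintype.equivFin σ).symm
  have hen : ∀ j : σ, ∃ i, en i = j := fun j => (Fintype.equivFin σ).symm.surjective j
  have hF : FT (FS f u m ω hω).F := ft_FS f u m ω hω
  have hG : FT (TT0 (TSu h m ω)).F := ft_TT0 _
  rw [χ.stair hF (fun i => pdF h m ω hω (en i)), χ.stair hG (fun i => pdT h m ω (en i))]
  have z1 : χ.χ ((FS f u m ω hω).stz (fun i => pdF h m ω hω (en i))) = 0 := by
    refine χ.empty (FT.stz hF _) fun S _ _ γ => ?_
    refine torus_empty h hN hT (fun i => coeff (u i) (γ.1.1.1 i)) γ.1.2.1 ?_ fun j => ?_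
    · have h1 := (coeff_lead h γ.1.1.1 (sup_low γ.1.1.2)).2
      rw [← h1, γ.1.2.2 N hN.le, if_neg (by omega)]
    · obtain ⟨i, rfl⟩ := hen j
      exact γ.2 i
  have z2 : χ.χ ((TT0 (TSu h m ω)).stz (fun i => pdT h m ω (en i))) = 0 := by
    refine χ.empty (FT.stz hG _) fun S _ _ x => ?_
    refine torus_empty h hN hT x.1.1 (fun i hi => (x.1.2.1 i).1 (Finset.mem_filter.2
      ⟨Finset.mem_univ i, hi⟩)) x.1.2.2 fun j => ?_
    obtain ⟨i, rfl⟩ := hen j
    exact x.2 i
  rw [z1, z2, add_zero, add_zero, Finset.mul_sum, Finset.mul_sum]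
  refine Finset.sum_congr rfl fun j _ => ?_
  by_cases hj : u (en j) ≤ N
  · obtain ⟨h1, h2⟩ := DRj_card u m N (en j) hN hj
    rw [χ.iso (FT.stp hF _ _) (p3_iso h ω hω en hhen hN j), χ.times_sup (FT.stp hG _ _) h1,
      ← mul_assoc, Li_L]
    rw [sum_min σ u m, ← h2]
    ring
  · have h3 := pderiv_zero h (not_le.1 hj)
    have e1 : χ.χ ((FS f u m ω hω).stp (fun i => pdF h m ω hω (en i)) j) = 0 := by
      refine χ.empty (FT.stp hF _ _) fun S _ _ γ => ?_
      have h4 : IsUnit (MvPolynomial.aeval (fun i => coeff (u i) (γ.1.1.1 i))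
        (MvPolynomial.pderiv (en j) (part f I))) := γ.2.2
      rw [h3, map_zero] at h4
      obtain ⟨a, ha⟩ := h4.exists_left_inv
      rw [mul_zero] at ha
      exact ha.symm
    have e2 : χ.χ ((TT0 (TSu h m ω)).stp (fun i => pdT h m ω (en i)) j) = 0 := by
      refine χ.empty (FT.stp hG _ _) fun S _ _ x => ?_
      have h4 : IsUnit (MvPolynomial.aeval x.1.1
        (MvPolynomial.pderiv (en j) (part f I))) := x.2.2
      rw [h3, map_zero] at h4
      obtain ⟨a, ha⟩ := h4.exists_left_inv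
      rw [mul_zero] at ha
      exact ha.symm
    rw [e1, e2, mul_zero, mul_zero]

end Pool.Agent.Helper30_Simp.H51
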