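import Pool.Agent.Helper51_Simp.Lead

/-!
# SIMP, module P2
-/

set_option autoImplicit false
set_option linter.unusedVariables false
set_option linter.unusedSectionVars false

namespace Pool.Agent.Helper30_Simp.H51

open PowerSeries Finset Pool.Agent.Helper6_Mono Pool.Agent.Helper30_Simp

variable {k : Type} [Field k] {σ : Type} [Fintype σ] {W : Type} [AddCommGroup W]

/-- the leading coefficients form a point of the torus -/
theorem tor_mem {f : MvPolynomial σ k} {I : Finset (σ →₀ ℕ)} {J : Finset σ} {u : σ → ℕ} {N : ℕ}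
    (h : CellS f.support I J u N) (m : ℕ) (ω : W) {S : Type} [CommRing S] [Algebra k S]
    {γ : σ → S⟦X⟧} (hγ : ∀ i j, (i, j) ∉ DU u m → coeff j (γ i) = 0)
    (hu : ∀ i, u i ≤ m → IsUnit (coeff (u i) (γ i))) (i : σ) :
    (i ∈ (TSu h m ω).U → IsUnit (coeff (u i) (γ i))) ∧
      (i ∉ (TSu h m ω).U → coeff (u i) (γ i) = 0) := by
  classical
  refine ⟨fun hi => hu i (Finset.mem_filter.1 hi).2, fun hi => ?_⟩
  refine sup_big hγ ?_ _
  by_contra h'
  exact hi (Finset.mem_filter.2 ⟨Finset.mem_univ i, not_lt.1 h'⟩)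

/-- the base point -/
theorem base_pt {f : MvPolynomial σ k} {I : Finset (σ →₀ ℕ)} {J : Finset σ} {u : σ → ℕ} {N : ℕ}
    (h : CellS f.support I J u N) {S : Type} [CommRing S] {γ : σ → S⟦X⟧}
    (hγ : ∀ i c, c < u i → coeff c (γ i) = 0) (i : σ) [Decidable (i ∈ J)] :
    (if i ∈ J then coeff (u i) (γ i) else 0) = coeff 0 (γ i) := by
  split_ifs with hi
  · rw [(h.zero i).2 hi]
  · rw [hγ i 0 (Nat.pos_of_ne_zero fun h0 => hi ((h.zero i).1 h0))]

theorem cut_twS {D : Set (σ × ℕ)} (ω : W) {S S' : Type} [CommRing S] [Algebra k S]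
    [CommRing S'] [Algebra k S'] (φ : S →ₐ[k] S') (c : Chr W S') (γ : σ → S⟦X⟧) (i : σ) :
    cut D (fun i => twS ω φ c (γ i)) i = twS ω φ c (cut D γ i) := by
  ext e
  rw [coeff_twS]
  by_cases h : (i, e) ∈ D
  · rw [coeff_cut_mem _ h, coeff_cut_mem _ h, coeff_twS]
  · rw [coeff_cut_not _ h, coeff_cut_not _ h, map_zero, mul_zero]

theorem p2_iso {f : MvPolynomial σ k} {I : Finset (σ →₀ ℕ)} {J : Finset σ} {u : σ → ℕ} {m : ℕ}
    (h : CellS f.support I J u m) (ω : W) (hω : m • ω = 0) :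
    OIso (FS f u m ω hω) ((TT1 (TSu h m ω) hω).times (GF.sup k (DP u m) ω)) := by
  classical
  refine OIso.mk' (fun S _ _ γ => (⟨fun i => coeff (u i) (γ.1.1 i),
      tor_mem h m ω γ.1.2 γ.2.1, ?_⟩, ⟨cut (DP u m) γ.1.1, fun i c hc => coeff_cut_not _ hc⟩))
    (fun S _ _ q => ⟨⟨fun i => C (q.1.1 i) * X ^ u i + q.2.1 i, fun i c hc => ?_⟩,
      fun i hi => ?_, fun c hc => ?_⟩) ?_ ?_ ?_ ?_
  · have h1 := (coeff_lead h γ.1.1 (sup_low γ.1.2)).2
    rw [← h1, γ.2.2 m le_rfl, if_pos rfl]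
  · have hq := q.1.2.1
    rw [map_add, coeff_C_mul, coeff_X_pow]
    by_cases h1 : c = u i
    · have h2 : ¬ u i ≤ m := fun h2 => hc ⟨h1.ge, by show c ≤ m; omega⟩
      have h3 : i ∉ (TSu h m ω).U := fun h3 => h2 (Finset.mem_filter.1 h3).2
      rw [(hq i).2 h3, zero_mul, zero_add, q.2.2 i c]
      intro h4
      have := h4.1
      exact absurd this (by show ¬ u i < c; omega)
    · rw [if_neg h1, mul_zero, zero_add, q.2.2 i c]
      intro h4
      exact hc ⟨le_of_lt h4.1, h4.2⟩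
  · show IsUnit (coeff (u i) (C (q.1.1 i) * X ^ u i + q.2.1 i))
    rw [map_add, coeff_C_mul, coeff_X_pow, if_pos rfl, mul_one,
      q.2.2 i (u i) (fun h4 => lt_irrefl _ h4.1), add_zero]
    exact (q.1.2.1 i).1 (Finset.mem_filter.2 ⟨Finset.mem_univ i, hi⟩)
  · have hlow : ∀ i c, c < u i → coeff c (C (q.1.1 i) * X ^ u i + q.2.1 i) = 0 := by
      intro i c hc
      rw [map_add, coeff_C_mul, coeff_X_pow, if_neg (by omega), mul_zero, zero_add,
        q.2.2 i c (fun h4 => absurd h4.1 (by show ¬ u i < c; omega))]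
    have hl := coeff_lead h (fun i => C (q.1.1 i) * X ^ u i + q.2.1 i) hlow
    rcases lt_or_eq_of_le hc with h1 | h1
    · rw [if_neg (by omega)]
      exact hl.1 c h1
    · rw [if_pos h1, h1]
      refine hl.2.trans ?_
      have h2 : (fun i => coeff (u i) (C (q.1.1 i) * X ^ u i + q.2.1 i)) = q.1.1 := by
        funext i
        rw [map_add, coeff_C_mul, coeff_X_pow, if_pos rfl, mul_one,
          q.2.2 i (u i) (fun h4 => lt_irrefl _ h4.1), add_zero]
      rw [h2]
      exact q.1.2.2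
  · intro S _ _ γ
    refine Subtype.ext (Subtype.ext (funext fun i => ?_))
    show C (coeff (u i) (γ.1.1 i)) * X ^ u i + cut (DP u m) γ.1.1 i = γ.1.1 i
    ext c
    rw [map_add, coeff_C_mul, coeff_X_pow]
    by_cases h1 : (i, c) ∈ DP u m
    · rw [coeff_cut_mem _ h1, if_neg (fun h2 => absurd h1.1 (by show ¬ u i < c; omega)),
        mul_zero, zero_add]
    · rw [coeff_cut_not _ h1, add_zero]
      split_ifs with h2
      · rw [h2, mul_one]
      · rw [mul_zero, γ.1.2 i c]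
        intro h3
        exact h1 ⟨lt_of_le_of_ne h3.1 (Ne.symm h2), h3.2⟩
  · intro S _ _ q
    refine Prod.ext (Subtype.ext (funext fun i => ?_)) (Subtype.ext (funext fun i => ?_))
    · show coeff (u i) (C (q.1.1 i) * X ^ u i + q.2.1 i) = q.1.1 i
      rw [map_add, coeff_C_mul, coeff_X_pow, if_pos rfl, mul_one,
        q.2.2 i (u i) (fun h4 => lt_irrefl _ h4.1), add_zero]
    · show cut (DP u m) (fun i => C (q.1.1 i) * X ^ u i + q.2.1 i) i = q.2.1 i
      ext c
      by_cases h1 : (i, c) ∈ DP u m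
      · rw [coeff_cut_mem _ h1, map_add, coeff_C_mul, coeff_X_pow,
          if_neg (fun h2 => absurd h1.1 (by show ¬ u i < c; omega)), mul_zero, zero_add]
      · rw [coeff_cut_not _ h1, q.2.2 i c h1]
  · intro S S' _ _ _ _ φ c γ
    refine Prod.ext (Subtype.ext (funext fun i => ?_)) (Subtype.ext (funext fun i => ?_))
    · show coeff (u i) (twS ω φ c (γ.1.1 i)) = chr c (u i • ω) * φ (coeff (u i) (γ.1.1 i))
      rw [coeff_twS]
    · exact cut_twS ω φ c γ.1.1 i
  · intro S _ _ γ i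
    exact base_pt h (sup_low γ.1.2) i

/-- MODULE P2 -/
theorem p2 : P2Stmt := by
  intro k _ σ _ R _ L χ f I J u m h ω hω
  obtain ⟨h1, h2⟩ := DP_card u m
  rw [χ.iso (ft_FS f u m ω hω) (p2_iso h ω hω), χ.times_sup (ft_TT1 _ _) h1, h2, ← mul_assoc,
    Li_L (sum_min σ u m)]

end Pool.Agent.Helper30_Simp.H51
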